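import Pool.Agent.helper28.SN.SpecC

/-!
# Row sn:cJAC: the integral of a Jacobian determinant with one compactly supported entry vanishes
-/

set_option autoImplicit false

open scoped Pointwise ContDiff
open MeasureTheory Set Filter Topology Pool.Agent.helper83.SC Pool.Agent.helper69.SN

namespace Pool.Agent.helper28.SN

theorem cJAC_expand {m : ℕ} (g : Fin m → E m → ℝ) (x : E m) :
    jac g x = ∑ τ : Equiv.Perm (Fin m), ((Equiv.Perm.sign τ : ℤ) : ℝ) * ∏ i, pd (τ i) (g i) x := by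
  unfold jac
  rw [← Matrix.det_transpose, Matrix.det_apply']
  rfl

theorem cJAC_int {m : ℕ} (hPD : cPD_stmt) (g : Fin m → E m → ℝ) (i₀ : Fin m)
    (hg : ∀ i, ContDiff ℝ ∞ (g i)) (hc : HasCompactSupport (g i₀)) (τ : Equiv.Perm (Fin m)) :
    Integrable (fun x => ∏ i, pd (τ i) (g i) x) := by
  have hs : ∀ i, ContDiff ℝ ∞ (pd (τ i) (g i)) := fun i => (hPD (τ i) (τ i) (g i) (hg i)).1
  have hcont : Continuous (fun x => ∏ i, pd (τ i) (g i) x) :=
    continuous_finsetProd _ fun i _ => (hs i).continuous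
  refine hcont.integrable_of_hasCompactSupport ?_
  have h0 : HasCompactSupport (pd (τ i₀) (g i₀)) := (hPD (τ i₀) (τ i₀) (g i₀) (hg i₀)).2.1 hc
  have h1 : (fun x => ∏ i, pd (τ i) (g i) x) =
      (pd (τ i₀) (g i₀)) * (fun x => ∏ i ∈ Finset.univ.erase i₀, pd (τ i) (g i) x) := by
    funext x
    simp only [Pi.mul_apply]
    rw [Finset.mul_prod_erase Finset.univ (fun i => pd (τ i) (g i) x) (Finset.mem_univ i₀)]
  rw [h1]
  exact h0.mul_right

theorem cJAC_term {m : ℕ} (hPD : cPD_stmt) (hIBP : cIBP_stmt) (g : Fin m → E m → ℝ) (i₀ : Fin m)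
    (hg : ∀ i, ContDiff ℝ ∞ (g i)) (hc : HasCompactSupport (g i₀)) (τ : Equiv.Perm (Fin m)) :
    ∫ x, ∏ i, pd (τ i) (g i) x =
      -∑ k ∈ Finset.univ.erase i₀, ∫ x, g i₀ x * (pd (τ i₀) (pd (τ k) (g k)) x *
        ∏ l ∈ (Finset.univ.erase i₀).erase k, pd (τ l) (g l) x) := by
  have hs : ∀ i, ContDiff ℝ ∞ (pd (τ i) (g i)) := fun i => (hPD (τ i) (τ i) (g i) (hg i)).1
  have hs2 : ∀ k, ContDiff ℝ ∞ (pd (τ i₀) (pd (τ k) (g k))) := fun k =>
    (hPD (τ i₀) (τ i₀) _ (hs k)).1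
  have h1 : (fun x => ∏ i, pd (τ i) (g i) x) =
      fun x => (pd (τ i₀) (g i₀) x) * ((fun y => ∏ i ∈ Finset.univ.erase i₀, pd (τ i) (g i) y) x) := by
    funext x
    rw [Finset.mul_prod_erase Finset.univ (fun i => pd (τ i) (g i) x) (Finset.mem_univ i₀)]
  have hprod : ContDiff ℝ ∞ (fun y => ∏ i ∈ Finset.univ.erase i₀, pd (τ i) (g i) y) :=
    contDiff_prod fun i _ => hs i
  rw [h1, hIBP (τ i₀) (g i₀) _ (hg i₀) hprod hc]
  congr 1
  rw [← integral_finsetSum]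
  · congr 1
    funext x
    rw [(hPD (τ i₀) (τ i₀) (g i₀) (hg i₀)).2.2.2 (Finset.univ.erase i₀) (fun i => pd (τ i) (g i)) hs x,
      Finset.mul_sum]
  · intro k hk
    have hcont : Continuous (fun x => g i₀ x * (pd (τ i₀) (pd (τ k) (g k)) x *
        ∏ l ∈ (Finset.univ.erase i₀).erase k, pd (τ l) (g l) x)) :=
      (hg i₀).continuous.mul ((hs2 k).continuous.mul
        (continuous_finsetProd _ fun i _ => (hs i).continuous))
    refine hcont.integrable_of_hasCompactSupport ?_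
    exact hc.mul_right

theorem cJAC (hPD : cPD_stmt) (hIBP : cIBP_stmt) : cJAC_stmt := by
  intro m g i₀ hg hc
  have h1 : (fun x => jac g x) = fun x => ∑ τ : Equiv.Perm (Fin m),
      ((Equiv.Perm.sign τ : ℤ) : ℝ) * ∏ i, pd (τ i) (g i) x := by
    funext x
    exact cJAC_expand g x
  rw [h1, integral_finsetSum _ (fun τ _ => (cJAC_int hPD g i₀ hg hc τ).const_mul _)]
  simp only [integral_const_mul]
  have h2 : ∀ τ : Equiv.Perm (Fin m), ((Equiv.Perm.sign τ : ℤ) : ℝ) * ∫ x, ∏ i, pd (τ i) (g i) x =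
      -∑ k ∈ Finset.univ.erase i₀, ((Equiv.Perm.sign τ : ℤ) : ℝ) *
        ∫ x, g i₀ x * (pd (τ i₀) (pd (τ k) (g k)) x *
        ∏ l ∈ (Finset.univ.erase i₀).erase k, pd (τ l) (g l) x) := by
    intro τ
    rw [cJAC_term hPD hIBP g i₀ hg hc τ, mul_neg, Finset.mul_sum]
  rw [Finset.sum_congr rfl (fun τ _ => h2 τ), Finset.sum_neg_distrib, Finset.sum_comm, neg_eq_zero]
  refine Finset.sum_eq_zero fun k hk => ?_
  have hki : k ≠ i₀ := (Finset.mem_erase.1 hk).1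
  set I : Equiv.Perm (Fin m) → ℝ := fun τ => ∫ x, g i₀ x * (pd (τ i₀) (pd (τ k) (g k)) x *
        ∏ l ∈ (Finset.univ.erase i₀).erase k, pd (τ l) (g l) x) with hI
  have hswap : ∀ τ : Equiv.Perm (Fin m), I (τ * Equiv.swap i₀ k) = I τ := by
    intro τ
    simp only [hI]
    congr 1
    funext x
    have e1 : (τ * Equiv.swap i₀ k) i₀ = τ k := by simp
    have e2 : (τ * Equiv.swap i₀ k) k = τ i₀ := by simp
    rw [e1, e2]
    congr 2
    · exact (hPD (τ k) (τ i₀) (g k) (hg k)).2.2.1 x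
    · refine Finset.prod_congr rfl fun l hl => ?_
      have hl1 : l ≠ k := (Finset.mem_erase.1 hl).1
      have hl2 : l ≠ i₀ := (Finset.mem_erase.1 (Finset.mem_erase.1 hl).2).1
      have e3 : (τ * Equiv.swap i₀ k) l = τ l := by
        simp [Equiv.swap_apply_of_ne_of_ne hl2 hl1]
      rw [e3]
  have hsum : ∑ τ : Equiv.Perm (Fin m), ((Equiv.Perm.sign τ : ℤ) : ℝ) * I τ =
      ∑ τ : Equiv.Perm (Fin m), ((Equiv.Perm.sign (τ * Equiv.swap i₀ k) : ℤ) : ℝ) *
        I (τ * Equiv.swap i₀ k) :=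
    (Equiv.sum_comp (Equiv.mulRight (Equiv.swap i₀ k))
      (fun τ : Equiv.Perm (Fin m) => ((Equiv.Perm.sign τ : ℤ) : ℝ) * I τ)).symm
  have hneg : ∑ τ : Equiv.Perm (Fin m), ((Equiv.Perm.sign (τ * Equiv.swap i₀ k) : ℤ) : ℝ) *
        I (τ * Equiv.swap i₀ k) = -∑ τ : Equiv.Perm (Fin m), ((Equiv.Perm.sign τ : ℤ) : ℝ) * I τ := by
    rw [← Finset.sum_neg_distrib]
    refine Finset.sum_congr rfl fun τ _ => ?_
    rw [hswap τ, Equiv.Perm.sign_mul, Equiv.Perm.sign_swap (Ne.symm hki)]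
    push_cast
    ring
  have := hsum.trans hneg
  linarith

end Pool.Agent.helper28.SN
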